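import Pool.Agent.helper9.TH.Spec

/-!
Row S10 of the Thompson / Kegel project for MP_fd6eef_al: the final contradiction of
Thompson's normal p-complement theorem.
-/

namespace Pool.Agent.helper72.TH

open Pool.Agent.helper9.TH

universe u

/-- The abstract form of S10: an action `ρ` of `G` on the elementary abelian group `W`
with kernel `U`. -/
theorem S10_aux (hT5q : T5q_stmt.{u}) (hT5t : T5t_stmt.{u}) (p : ℕ) (G : Type u) [Group G]
    [Finite G] (U K A : Subgroup G) (W : Type u) [AddCommGroup W] [Finite W]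
    (ρ : G →* (AddMonoid.End W)ˣ) (hp : p.Prime) (hp2 : p ≠ 2) (hK : K.Normal)
    (hW : ∀ w : W, p • w = 0) (hker : ∀ g : G, ρ g = 1 ↔ g ∈ U)
    (hKU : ∀ x ∈ K, ∀ y ∈ K, x * y * x⁻¹ * y⁻¹ ∈ U)
    (hcop : (U.relIndex K).Coprime p) (hA : EA p A) (hAU : ¬ A ≤ U)
    (hfaith : ∀ g ∈ A, (∀ k ∈ K, g * k * g⁻¹ * k⁻¹ ∈ U) → g ∈ U)
    (hcard : Nat.card W * Nat.card (A ⊓ U : Subgroup G) ≤
        Nat.card A * Nat.card (fixpts (A.map ρ))) : False := by
  have hkerU : ρ.ker = U := by
    ext g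
    rw [MonoidHom.mem_ker]
    exact hker g
  -- the images
  have hEA : EA p (A.map ρ) := by
    constructor
    · rintro _ ⟨x, hx, rfl⟩ _ ⟨y, hy, rfl⟩
      rw [← map_mul, hA.1 x hx y hy, map_mul]
    · rintro _ ⟨x, hx, rfl⟩
      rw [← map_pow, hA.2 x hx, map_one]
  have hne : A.map ρ ≠ ⊥ := by
    intro h
    apply hAU
    intro a ha
    rw [← hker]
    have h1 : ρ a ∈ A.map ρ := ⟨a, ha, rfl⟩
    rw [h] at h1
    exact Subgroup.mem_bot.mp h1
  have hQab : ∀ x ∈ K.map ρ, ∀ y ∈ K.map ρ, x * y = y * x := by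
    rintro _ ⟨x, hx, rfl⟩ _ ⟨y, hy, rfl⟩
    have h1 := (hker _).mpr (hKU x hx y hy)
    rw [map_mul, map_mul, map_mul, map_inv, map_inv] at h1
    have h2 : ρ x * ρ y * (ρ x)⁻¹ = ρ y := mul_inv_eq_one.mp h1
    exact mul_inv_eq_iff_eq_mul.mp h2
  have hQcop : (Nat.card (K.map ρ)).Coprime p := by
    rw [← Subgroup.relIndex_ker, hkerU]
    exact hcop
  have hnorm : ∀ b ∈ A.map ρ, ∀ x ∈ K.map ρ, b * x * b⁻¹ ∈ K.map ρ := by
    rintro _ ⟨b, hb, rfl⟩ _ ⟨x, hx, rfl⟩
    exact ⟨b * x * b⁻¹, hK.conj_mem x hx b, by simp⟩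
  have hfaith' : ∀ b ∈ A.map ρ, (∀ x ∈ K.map ρ, b * x = x * b) → b = 1 := by
    rintro _ ⟨g, hg, rfl⟩ h
    rw [hker]
    apply hfaith g hg
    intro k hk
    rw [← hker, map_mul, map_mul, map_mul, map_inv, map_inv, h (ρ k) ⟨k, hk, rfl⟩]
    group
  -- the count
  have hA1 : Nat.card (A ⊓ U : Subgroup G) * Nat.card (A.map ρ) = Nat.card A := by
    rw [← Subgroup.relIndex_ker, hkerU, ← Subgroup.inf_relIndex_left,
      ← Subgroup.relIndex_bot_left (A ⊓ U), ← Subgroup.relIndex_bot_left A]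
    exact Subgroup.relIndex_mul_relIndex _ _ _ bot_le inf_le_left
  have hpos : 0 < Nat.card (A ⊓ U : Subgroup G) := Nat.card_pos
  have hcard' : Nat.card W ≤ Nat.card (A.map ρ) * Nat.card (fixpts (A.map ρ)) := by
    rw [← hA1, mul_comm, mul_assoc] at hcard
    exact Nat.le_of_mul_le_mul_left hcard hpos
  obtain ⟨β, hβ, hβ1, hβc⟩ := hT5q p W hp hW (A.map ρ) (K.map ρ) hEA hne hQab hQcop hnorm
    hfaith' hcard'
  apply hβ1
  apply hfaith' β hβ
  have hinv : ∀ x ∈ K.map ρ, β⁻¹ * x * β ∈ K.map ρ := by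
    intro x hx
    have h1 := hnorm β⁻¹ ((A.map ρ).inv_mem hβ) x hx
    rwa [inv_inv] at h1
  exact hT5t p W hp hp2 hW (K.map ρ) β (hEA.2 β hβ) hQab hQcop (hnorm β hβ) hinv hβc

/-- Row S10. -/
theorem S10 (hT5q : T5q_stmt.{u}) (hT5t : T5t_stmt.{u}) : S10_stmt.{u} := by
  intro p G _ _ U V K A hp hp2 hU hV hK hVU hEV hVc hcent hUK hKU hcop hA hAU hfaith hcard
  haveI := hV
  letI : CommGroup V :=
    { (inferInstance : Group V) with
      mul_comm := fun x y => Subtype.ext (hEV.1 x x.2 y y.2) }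
  -- the action
  let ρ0 : G →* AddMonoid.End (Additive V) :=
    { toFun := fun g => MonoidHom.toAdditive ((MulAut.conjNormal g : MulAut V) : V →* V)
      map_one' := by
        refine AddMonoidHom.ext fun w => ?_
        apply Additive.toMul.injective
        apply Subtype.ext
        change ((MulAut.conjNormal (1 : G) w.toMul : V) : G) = (w.toMul : V)
        rw [MulAut.conjNormal_apply, one_mul, inv_one, mul_one]
      map_mul' := by
        intro g h
        refine AddMonoidHom.ext fun w => ?_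
        apply Additive.toMul.injective
        apply Subtype.ext
        change ((MulAut.conjNormal (g * h) w.toMul : V) : G) =
          (MulAut.conjNormal g (MulAut.conjNormal h w.toMul : V) : V)
        rw [MulAut.conjNormal_apply, MulAut.conjNormal_apply, MulAut.conjNormal_apply,
          mul_inv_rev]
        simp only [mul_assoc] }
  have hρ0 : ∀ (g : G) (v : V),
      ((((ρ0 g) (Additive.ofMul v) : Additive V).toMul : V) : G) = g * v * g⁻¹ := by
    intro g v
    change ((MulAut.conjNormal g v : V) : G) = g * v * g⁻¹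
    exact MulAut.conjNormal_apply g v
  let ρ : G →* (AddMonoid.End (Additive V))ˣ := MonoidHom.toHomUnits ρ0
  have hρ : ∀ (g : G) (v : V),
      (((((ρ g : (AddMonoid.End (Additive V))ˣ) : AddMonoid.End (Additive V))
        (Additive.ofMul v) : Additive V).toMul : V) : G) = g * v * g⁻¹ := hρ0
  refine S10_aux hT5q hT5t p G U K A (Additive V) ρ hp hp2 hK ?_ ?_ hKU hcop hA hAU hfaith ?_
  · intro w
    obtain ⟨v, rfl⟩ := Additive.ofMul.surjective w
    rw [← ofMul_pow]
    have h1 : v ^ p = 1 := Subtype.ext (by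
      rw [Subgroup.coe_pow, hEV.2 v v.2, Subgroup.coe_one])
    rw [h1, ofMul_one]
  · intro g
    constructor
    · intro h
      apply hcent
      intro v hv
      have h1 := hρ g ⟨v, hv⟩
      rw [h] at h1
      change v = g * v * g⁻¹ at h1
      exact (mul_inv_eq_iff_eq_mul.mp h1.symm)
    · intro hg
      apply Units.ext
      refine AddMonoidHom.ext fun w => ?_
      obtain ⟨v, rfl⟩ := Additive.ofMul.surjective w
      apply Additive.toMul.injective
      apply Subtype.ext
      refine (hρ g v).trans ?_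
      change g * (v : G) * g⁻¹ = (v : G)
      rw [← hVc v v.2 g hg]
      group
  · refine hcard.trans (Nat.mul_le_mul_left _ ?_)
    have hmem : ∀ x : (V ⊓ Subgroup.centralizer (A : Set G) : Subgroup G),
        Additive.ofMul (⟨(x : G), x.2.1⟩ : V) ∈ fixpts (A.map ρ) := by
      rintro ⟨x, hx1, hx2⟩
      rintro _ ⟨a, ha, rfl⟩
      apply Additive.toMul.injective
      apply Subtype.ext
      refine (hρ a _).trans ?_
      change a * x * a⁻¹ = x
      rw [(Subgroup.mem_centralizer_iff.mp hx2) a ha]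
      group
    refine Nat.card_le_card_of_injective
      (fun x : (V ⊓ Subgroup.centralizer (A : Set G) : Subgroup G) =>
        (⟨Additive.ofMul (⟨(x : G), x.2.1⟩ : V), hmem x⟩ : fixpts (A.map ρ))) ?_
    intro x y hxy
    have h1 := congrArg Subtype.val hxy
    have h2 : (⟨(x : G), x.2.1⟩ : V) = ⟨(y : G), y.2.1⟩ := Additive.ofMul.injective h1
    exact Subtype.ext (congrArg (fun z : V => (z : G)) h2)

end Pool.Agent.helper72.TH
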